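import Pool.Agent.L5helper76.Fac.Ent

/-!
# A fixed-point free flow without small-entropy flow factors separating two given points

The flow is the product of the translation flow on the space of the `1`-Lipschitz functions
`ℝ → [0,1]` (topology of pointwise convergence) and of a periodic orbit of period `1`; the two points
are the constant functions `0` and `1`. If a factor separates them, the Poincaré–Miranda theorem
applied to functions with prescribed values on long blocks shows that a function on the factor takes all
values in a cube along the block times, so that the entropy is infinite.
-/

open Set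

namespace Pool.Agent.Results.MP_54b048_an.NoSmallEntropyFlowFactor

/-- There are a fixed-point free flow on a compact metrizable space and two distinct points such that
every flow factor which separates them has infinite topological entropy. -/
theorem result :
    ∃ (X : Type) (_ : TopologicalSpace X) (_ : CompactSpace X)
      (_ : TopologicalSpace.MetrizableSpace X) (φ : Flow ℝ X),
      (∀ x, ∃ t, φ t x ≠ x) ∧
      ∃ w w' : X, w ≠ w' ∧
        ∀ (Y : Type) [MetricSpace Y] [CompactSpace Y] (ψ : Flow ℝ Y) (π : X → Y),
          Continuous π → Function.Surjective π → (∀ t x, π (φ t x) = ψ t (π x)) →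
          π w ≠ π w' → Dynamics.coverEntropy (ψ 1) univ = ⊤ := by
  refine ⟨L5helper76.Fac.X, inferInstance, inferInstance, inferInstance, L5helper76.Fac.flow,
    L5helper76.Fac.flow_fixedPointFree, (L5helper76.Fac.zeroL, 0), (L5helper76.Fac.oneL, 0), ?_, ?_⟩
  · intro h
    have h1 := congrArg (fun x : L5helper76.Fac.X => x.1.1 0) h
    exact zero_ne_one (α := ℝ) h1
  · intro Y _ _ ψ π hπ _ he hne
    exact L5helper76.Fac.entropy_top ψ π hπ he hne

end Pool.Agent.Results.MP_54b048_an.NoSmallEntropyFlowFactor
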